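import Mathlib
import Pool.Agent.H.MP_ca9574_an.A

set_option autoImplicit false
open Metric

namespace Pool.Agent.Results.MP_ca9574_an.NatBdry

theorem result (n : ℕ) :
    ∃ f : EuclideanSpace ℂ (Fin n) → ℂ,
      DifferentiableOn ℂ f (ball 0 1) ∧ ContinuousOn f (closedBall 0 1) ∧
      (∀ k : ℕ, ∃ g : EuclideanSpace ℂ (Fin n) →
          ContinuousMultilinearMap ℂ (fun _ : Fin k => EuclideanSpace ℂ (Fin n)) ℂ,
        ContinuousOn g (closedBall 0 1) ∧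
          ∀ z ∈ ball (0 : EuclideanSpace ℂ (Fin n)) 1, iteratedFDeriv ℂ k f z = g z) ∧
      ∀ a b : EuclideanSpace ℂ (Fin n), b ≠ 0 → (∀ τ : ℂ, ‖τ‖ = 1 → ‖a + τ • b‖ = 1) →
        ∀ τ : ℂ, ‖τ‖ = 1 →
          ¬ ∃ (c : ℂ) (r : ℝ) (h : ℂ → ℂ), τ ∈ ball c r ∧ DifferentiableOn ℂ h (ball c r) ∧
            ∀ ζ ∈ ball c r, ‖ζ‖ < 1 → h ζ = f (a + ζ • b) :=
  Pool.Agent.H.MP_ca9574_an.main _

end Pool.Agent.Results.MP_ca9574_an.NatBdry
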